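import Pool.Agent.Helper68.ES.St3

/-! # Project ES, module TWB (the exit scale of the second class is constant on the squares) -/

set_option autoImplicit false

open MeasureTheory Set Filter Topology
open scoped ENNReal RealInnerProductSpace

namespace Pool.Agent.Helper57.ES

open Pool.Agent.Helper68.ES Pool.Agent.Helper68.EP Pool.Agent.Helper20.RG
open Pool.Agent.Helper20.RL (RQ Rich BM Fml Hit)
open Pool.Agent.Helper68.LM (Pl BB Bd Av HL ft fm DQ)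

theorem hTWB (hEQ : Pool.Agent.Helper68.EP.StEQ) (hEFB : Pool.Agent.Helper68.EP.StEFB)
    (hKPF : StKPF) : Pool.Agent.Helper68.ES.StTWB := by
  obtain ⟨q1, -, q3, q4, -, -⟩ := hEQ
  obtain ⟨-, -, -, f4, -⟩ := hEFB
  intro E H κ₁ g d₀ D₂ D hE hH hHE hg hD₂ hD hd hex z hz
  obtain ⟨-, hiff⟩ := hKPF H E D₂ D hH hE hHE hD₂ hD hex
  obtain ⟨hzH, hzv⟩ := hz
  set R := Rz κ₁ g z with hR
  have h4 : (0 : ℝ) < (4 : ℝ) ^ R := zpow_pos (by norm_num) _
  have claim1 : R + 2 < kp H E D₂ D z := by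
    by_contra hcon
    rw [not_lt] at hcon
    obtain ⟨h1, -⟩ := (hiff z hzH (R + 2)).1 hcon
    have h2 := h1.2 (R + 2) le_rfl
    have h3 : (4 : ℝ) ^ (R + 2) = 16 * (4 : ℝ) ^ R := by
      rw [zpow_add₀ (by norm_num)]
      norm_num
      ring
    have h5 : ENNReal.ofReal (D₂ * (4 : ℝ) ^ (R + 2)) ≤ ENNReal.ofReal (d₀ * (4 : ℝ) ^ R) := by
      apply ENNReal.ofReal_le_ofReal
      rw [h3]
      nlinarith
    have h6 : Ly H κ₁ g (κ₁ z / (g : ℤ)) ∩ DQ R z ⊆ H ∩ DQ3 (R + 2) z := by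
      intro y hy
      exact ⟨hy.1.1, (q1 (R + 2) z).2.2.1 (q4 R (R + 2) z (by omega) hy.2)⟩
    exact absurd (hzv.trans_le ((measure_mono h6).trans (h2.trans h5))) (lt_irrefl _)
  refine ⟨claim1, ?_⟩
  rintro z' ⟨hz'H, hz'Q⟩
  have hQ : DQ R z' = DQ R z := (q3 R R z z' le_rfl hz'Q).2
  have hzQ : z ∈ DQ R z' := by
    rw [hQ]
    exact (q1 R z).2.1
  have key : ∀ (S : Set Pl) (D' : ℝ) (b : ℤ), R ≤ b → z ∈ S → z' ∈ S →
      (z ∈ Fb S D' b ↔ z' ∈ Fb S D' b) := by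
    intro S D' b hb hzS hz'S
    constructor
    · intro h
      exact f4 S D' b R z hb h ⟨hz'S, hz'Q⟩
    · intro h
      exact f4 S D' b R z' hb h ⟨hzS, hzQ⟩
  have hk : ∀ b : ℤ, R ≤ b → (kp H E D₂ D z ≤ b ↔ kp H E D₂ D z' ≤ b) := by
    intro b hb
    rw [hiff z hzH b, hiff z' hz'H b, key H D₂ b hb hzH hz'H, key E D b hb (hHE hzH) (hHE hz'H)]
  have h1 : R < kp H E D₂ D z' := by
    by_contra hcon
    rw [not_lt] at hcon
    have := (hk R le_rfl).2 hcon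
    omega
  have h2 : kp H E D₂ D z ≤ kp H E D₂ D z' := (hk _ h1.le).2 le_rfl
  have h3 : kp H E D₂ D z' ≤ kp H E D₂ D z := (hk _ (by omega)).1 le_rfl
  exact le_antisymm h3 h2

end Pool.Agent.Helper57.ES
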